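import Mathlib

/-!
# Counting Tesler matrices against `(k+1)^(n-1)`

For `n ≥ k ≥ 11` the number of Tesler matrices with hook sums `(1^k, 0^(n-k))` is at least
`(k+1)^(n-1)`.
-/

set_option autoImplicit false

open Finset

namespace Pool.Agent.Results.MP_1235ca_co.TeslerLowerBound

/-- `A` is a Tesler matrix with hook sums `α`: it is upper triangular with entries in `ℕ`, and for
every `i` the sum of row `i` from the diagonal rightwards equals `α i` plus the sum of the entries
of column `i` strictly above the diagonal. -/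
def IsTesler {n : ℕ} (α : Fin n → ℕ) (A : Matrix (Fin n) (Fin n) ℕ) : Prop :=
  (∀ i j, j < i → A i j = 0) ∧
    ∀ i, ∑ j ∈ Finset.Ici i, A i j = α i + ∑ j ∈ Finset.Iio i, A j i

/-- The number of Tesler matrices with hook sums `α`. -/
noncomputable def T {n : ℕ} (α : Fin n → ℕ) : ℕ :=
  {A : Matrix (Fin n) (Fin n) ℕ | IsTesler α A}.ncard

section aux

lemma isTesler_iff {n : ℕ} (α : Fin n → ℕ) (A : Matrix (Fin n) (Fin n) ℕ) :
    IsTesler α A ↔ (∀ i j, j < i → A i j = 0) ∧
      ∀ i, ∑ j, A i j + A i i = α i + ∑ j, A j i := by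
  unfold IsTesler
  refine and_congr_right fun hU => forall_congr' fun i => ?_
  have h1 : ∑ j, A i j = ∑ j ∈ Finset.Ici i, A i j := by
    symm
    refine Finset.sum_subset (Finset.subset_univ _) fun j _ hj => ?_
    exact hU i j (by simpa using hj)
  have h2 : ∑ j, A j i = ∑ j ∈ Finset.Iio i, A j i + A i i := by
    rw [← Finset.sum_subset (Finset.subset_univ (insert i (Finset.Iio i))) fun j _ hj => ?_]
    · rw [Finset.sum_insert (by simp), add_comm]
    · have : ¬ j ≤ i := by
        intro hle
        apply hj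
        rcases eq_or_lt_of_le hle with h | h
        · rw [h]; exact Finset.mem_insert_self _ _
        · exact Finset.mem_insert_of_mem (Finset.mem_Iio.2 h)
      exact hU j i (not_le.1 this)
  rw [h1, h2]
  omega

lemma sum_diag {n : ℕ} {α : Fin n → ℕ} {A : Matrix (Fin n) (Fin n) ℕ} (h : IsTesler α A) :
    ∑ i, A i i = ∑ i, α i := by
  have h2 := ((isTesler_iff α A).1 h).2
  have h3 : ∑ i, (∑ j, A i j + A i i) = ∑ i, (α i + ∑ j, A j i) :=
    Finset.sum_congr rfl fun i _ => h2 i
  rw [Finset.sum_add_distrib, Finset.sum_add_distrib, Finset.sum_comm] at h3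
  omega

lemma finite_tesler {n : ℕ} (α : Fin n → ℕ) :
    {A : Matrix (Fin n) (Fin n) ℕ | IsTesler α A}.Finite := by
  have hb : ∀ m : ℕ, ∃ B : ℕ, ∀ A : Matrix (Fin n) (Fin n) ℕ, IsTesler α A →
      ∀ i : Fin n, i.val < m → ∀ j, A i j ≤ B := by
    intro m
    induction m with
    | zero => exact ⟨0, fun A _ i hi => absurd hi (by omega)⟩
    | succ m ih =>
      obtain ⟨B, hB⟩ := ih
      refine ⟨B + (∑ i, α i) + n * B, fun A hA i hi j => ?_⟩
      rcases Nat.lt_succ_iff_lt_or_eq.1 hi with h | h
      · exact (hB A hA i h j).trans (by omega)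
      · rcases lt_or_ge j i with hji | hji
        · rw [hA.1 i j hji]; omega
        · have h1 : A i j ≤ ∑ j ∈ Finset.Ici i, A i j :=
            Finset.single_le_sum (f := fun j => A i j) (fun _ _ => Nat.zero_le _)
              (Finset.mem_Ici.2 hji)
          rw [hA.2 i] at h1
          have h2 : ∑ j ∈ Finset.Iio i, A j i ≤ n * B := by
            calc ∑ j ∈ Finset.Iio i, A j i ≤ ∑ j ∈ Finset.Iio i, B := by
                  refine Finset.sum_le_sum fun j hj => ?_
                  have : j < i := Finset.mem_Iio.1 hj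
                  exact hB A hA j (by rw [← h]; exact this) i
              _ ≤ n * B := by
                  rw [Finset.sum_const, smul_eq_mul]
                  refine Nat.mul_le_mul_right _ ?_
                  exact (Finset.card_le_univ _).trans (by simp)
          have h3 : α i ≤ ∑ i, α i :=
            Finset.single_le_sum (f := α) (fun _ _ => Nat.zero_le _) (Finset.mem_univ i)
          omega
  obtain ⟨B, hB⟩ := hb n
  refine (Set.finite_Iic (fun (_ : Fin n) (_ : Fin n) => B)).subset ?_
  intro A hA i j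
  exact hB A hA i i.2 j

/-- The finite set of all Tesler matrices with hook sums `α`. -/
noncomputable def TS {n : ℕ} (α : Fin n → ℕ) : Finset (Matrix (Fin n) (Fin n) ℕ) :=
  (finite_tesler α).toFinset

lemma mem_TS {n : ℕ} (α : Fin n → ℕ) (A : Matrix (Fin n) (Fin n) ℕ) :
    A ∈ TS α ↔ IsTesler α A := by
  simp [TS]

lemma T_eq {n : ℕ} (α : Fin n → ℕ) : T α = (TS α).card := by
  unfold T TS
  exact Set.ncard_eq_toFinset_card _ (finite_tesler α)

/-- The matrix obtained from `A` by sending `s i` units from every diagonal entry to a new last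
vertex with hook sum `x`. -/
def child {n : ℕ} (A : Matrix (Fin n) (Fin n) ℕ) (s : Fin n → ℕ) (x : ℕ) :
    Matrix (Fin (n + 1)) (Fin (n + 1)) ℕ :=
  Fin.snoc (α := fun _ => Fin (n + 1) → ℕ)
    (fun i : Fin n => Fin.snoc (α := fun _ => ℕ)
      (fun j : Fin n => if i = j then A i i - s i else A i j) (s i))
    (Fin.snoc (α := fun _ => ℕ) (fun _ => 0) (x + ∑ i, s i))

lemma child_cc {n : ℕ} (A : Matrix (Fin n) (Fin n) ℕ) (s : Fin n → ℕ) (x : ℕ) (i j : Fin n) :
    child A s x i.castSucc j.castSucc = if i = j then A i i - s i else A i j := by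
  simp [child]

lemma child_cl {n : ℕ} (A : Matrix (Fin n) (Fin n) ℕ) (s : Fin n → ℕ) (x : ℕ) (i : Fin n) :
    child A s x i.castSucc (Fin.last n) = s i := by
  simp [child]

lemma child_lc {n : ℕ} (A : Matrix (Fin n) (Fin n) ℕ) (s : Fin n → ℕ) (x : ℕ) (j : Fin n) :
    child A s x (Fin.last n) j.castSucc = 0 := by
  simp [child]

lemma child_ll {n : ℕ} (A : Matrix (Fin n) (Fin n) ℕ) (s : Fin n → ℕ) (x : ℕ) :
    child A s x (Fin.last n) (Fin.last n) = x + ∑ i, s i := by
  simp [child]

lemma child_tesler {n : ℕ} {α : Fin n → ℕ} {A : Matrix (Fin n) (Fin n) ℕ} (h : IsTesler α A)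
    (s : Fin n → ℕ) (hs : ∀ i, s i ≤ A i i) (x : ℕ) :
    IsTesler (Fin.snoc (α := fun _ => ℕ) α x) (child A s x) := by
  obtain ⟨hU, hH⟩ := (isTesler_iff α A).1 h
  rw [isTesler_iff]
  constructor
  · intro i j hji
    induction i using Fin.lastCases with
    | last =>
      induction j using Fin.lastCases with
      | last => exact absurd hji (lt_irrefl _)
      | cast j => exact child_lc A s x j
    | cast i =>
      induction j using Fin.lastCases with
      | last => exact absurd hji (by simpa using (Fin.castSucc_lt_last i).le)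
      | cast j =>
        have hji' : j < i := by simpa using hji
        rw [child_cc, if_neg hji'.ne']
        exact hU i j hji'
  · intro i
    induction i using Fin.lastCases with
    | last =>
      rw [Fin.sum_univ_castSucc, Fin.sum_univ_castSucc]
      simp only [child_lc, child_ll, child_cl, Fin.snoc_last, Finset.sum_const_zero]
      omega
    | cast i =>
      rw [Fin.sum_univ_castSucc, Fin.sum_univ_castSucc]
      simp only [child_cc, child_lc, child_cl, Fin.snoc_castSucc, if_true]
      have e1 : ∑ j, (if i = j then A i i - s i else A i j) + s i = ∑ j, A i j := by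
        rw [← Finset.add_sum_erase Finset.univ
            (fun j => if i = j then A i i - s i else A i j) (Finset.mem_univ i),
          ← Finset.add_sum_erase Finset.univ (fun j => A i j) (Finset.mem_univ i)]
        have : ∑ j ∈ Finset.univ.erase i, (if i = j then A i i - s i else A i j) =
            ∑ j ∈ Finset.univ.erase i, A i j :=
          Finset.sum_congr rfl fun j hj => if_neg (Finset.ne_of_mem_erase hj).symm
        rw [this, if_pos rfl]
        have := hs i
        omega
      have e2 : ∑ j, (if j = i then A j j - s j else A j i) + s i = ∑ j, A j i := by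
        rw [← Finset.add_sum_erase Finset.univ
            (fun j => if j = i then A j j - s j else A j i) (Finset.mem_univ i),
          ← Finset.add_sum_erase Finset.univ (fun j => A j i) (Finset.mem_univ i)]
        have : ∑ j ∈ Finset.univ.erase i, (if j = i then A j j - s j else A j i) =
            ∑ j ∈ Finset.univ.erase i, A j i :=
          Finset.sum_congr rfl fun j hj => if_neg (Finset.ne_of_mem_erase hj)
        rw [this, if_pos rfl]
        have := hs i
        omega
      have h3 := hH i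
      have h4 := hs i
      omega

lemma child_inj {n : ℕ} {A A' : Matrix (Fin n) (Fin n) ℕ} {s s' : Fin n → ℕ} {x : ℕ}
    (hs : ∀ i, s i ≤ A i i) (hs' : ∀ i, s' i ≤ A' i i) (h : child A s x = child A' s' x) :
    A = A' ∧ s = s' := by
  have h1 : s = s' := by
    funext i
    have := congrFun (congrFun h i.castSucc) (Fin.last n)
    simpa [child_cl] using this
  subst h1
  refine ⟨?_, rfl⟩
  ext i j
  have h2 := congrFun (congrFun h i.castSucc) j.castSucc
  rw [child_cc, child_cc] at h2
  by_cases hij : i = j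
  · subst hij
    rw [if_pos rfl, if_pos rfl] at h2
    have := hs i
    have := hs' i
    omega
  · rwa [if_neg hij, if_neg hij] at h2

/-- `Ψ_r(A) = ∏ (A i i + r choose r)`. -/
def Psi {n : ℕ} (r : ℕ) (A : Matrix (Fin n) (Fin n) ℕ) : ℕ := ∏ i, (A i i + r).choose r

/-- The sum of `Ψ_r` over all Tesler matrices. -/
noncomputable def U {n : ℕ} (r : ℕ) (α : Fin n → ℕ) : ℕ := ∑ A ∈ TS α, Psi r A

lemma Psi_child {n : ℕ} (r : ℕ) (A : Matrix (Fin n) (Fin n) ℕ) (s : Fin n → ℕ) (x : ℕ) :
    Psi r (child A s x) = (∏ i, (A i i - s i + r).choose r) * (x + ∑ i, s i + r).choose r := by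
  unfold Psi
  rw [Fin.prod_univ_castSucc]
  simp [child_cc, child_ll]

lemma U_snoc_ge {n : ℕ} (r : ℕ) (α : Fin n → ℕ) (x : ℕ) :
    ∑ A ∈ TS α, ∑ s ∈ Fintype.piFinset (fun i => Finset.range (A i i + 1)),
      (∏ i, (A i i - s i + r).choose r) * (x + ∑ i, s i + r).choose r ≤
      U r (Fin.snoc (α := fun _ => ℕ) α x) := by
  classical
  unfold U
  rw [Finset.sum_sigma']
  have hle : ∀ p ∈ (TS α).sigma
      (fun A => Fintype.piFinset (fun i => Finset.range (A i i + 1))), ∀ i, p.2 i ≤ p.1 i i := by
    intro p hp i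
    have h1 := (Finset.mem_sigma.1 hp).2
    have h2 := Finset.mem_range.1 (Fintype.mem_piFinset.1 h1 i)
    omega
  have hinj : Set.InjOn (fun p : (_ : Matrix (Fin n) (Fin n) ℕ) × (Fin n → ℕ) =>
      child p.1 p.2 x) ↑((TS α).sigma
      (fun A => Fintype.piFinset (fun i => Finset.range (A i i + 1)))) := by
    rintro ⟨A, s⟩ hp ⟨A', s'⟩ hp' heq
    obtain ⟨h1, h2⟩ := child_inj (hle _ hp) (hle _ hp') heq
    simp only at h1 h2
    subst h1
    subst h2
    rfl
  have h3 := Finset.sum_image (f := fun A => Psi r A) hinj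
  calc _ = ∑ p ∈ (TS α).sigma (fun A => Fintype.piFinset (fun i => Finset.range (A i i + 1))),
        Psi r (child p.1 p.2 x) := Finset.sum_congr rfl fun p _ => (Psi_child r p.1 p.2 x).symm
    _ = _ := h3.symm
    _ ≤ _ := by
      refine Finset.sum_le_sum_of_subset ?_
      intro A hA
      obtain ⟨p, hp, rfl⟩ := Finset.mem_image.1 hA
      rw [mem_TS]
      exact child_tesler ((mem_TS _ _).1 (Finset.mem_sigma.1 hp).1) _ (hle p hp) x

/-! ### Binomial sums -/

lemma sum_choose (r d : ℕ) :
    ∑ t ∈ Finset.range (d + 1), (d - t + r).choose r = (d + r + 1).choose (r + 1) := by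
  rw [← Nat.sum_range_add_choose d r, ← Finset.sum_range_reflect]
  refine Finset.sum_congr rfl fun t ht => ?_
  have := Finset.mem_range.1 ht
  congr 2
  omega

lemma sum_mul_choose (r d : ℕ) :
    ∑ t ∈ Finset.range (d + 1), t * (d - t + r).choose r = (d + r + 1).choose (r + 2) := by
  induction d with
  | zero => simp
  | succ d ih =>
    rw [Finset.sum_range_succ']
    have : ∀ t ∈ Finset.range (d + 1), (t + 1) * (d + 1 - (t + 1) + r).choose r =
        t * (d - t + r).choose r + (d - t + r).choose r := by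
      intro t _
      rw [Nat.add_sub_add_right]
      ring
    rw [Finset.sum_congr rfl this, Finset.sum_add_distrib, ih, sum_choose]
    simp only [zero_mul, add_zero]
    rw [show d + 1 + r + 1 = (d + r + 1) + 1 by ring, Nat.choose_succ_succ' (d + r + 1) (r + 1)]
    ring

lemma sum_mul_choose' (r d : ℕ) :
    (r + 2) * ∑ t ∈ Finset.range (d + 1), t * (d - t + r).choose r =
      d * (d + r + 1).choose (r + 1) := by
  rw [sum_mul_choose, mul_comm, Nat.choose_succ_right_eq]
  rw [show d + r + 1 - (r + 1) = d by omega, mul_comm]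

/-- The first two moments of the splitting sums. -/
lemma lin_sum {n : ℕ} (d : Fin n → ℕ) (r a b : ℕ) :
    (r + 2) * ∑ s ∈ Fintype.piFinset (fun i => Finset.range (d i + 1)),
      (∏ i, (d i - s i + r).choose r) * (a + b * ∑ i, s i) =
      ((r + 2) * a + b * ∑ i, d i) * ∏ i, (d i + r + 1).choose (r + 1) := by
  classical
  have h1 : ∑ s ∈ Fintype.piFinset (fun i => Finset.range (d i + 1)),
      (∏ i, (d i - s i + r).choose r) = ∏ i, (d i + r + 1).choose (r + 1) := by
    rw [← Finset.prod_univ_sum (fun i => Finset.range (d i + 1))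
      (fun i t => (d i - t + r).choose r)]
    exact Finset.prod_congr rfl fun i _ => sum_choose r (d i)
  have h2 : ∀ j, (r + 2) * ∑ s ∈ Fintype.piFinset (fun i => Finset.range (d i + 1)),
      (∏ i, (d i - s i + r).choose r) * s j = d j * ∏ i, (d i + r + 1).choose (r + 1) := by
    intro j
    have e : ∀ s ∈ Fintype.piFinset (fun i => Finset.range (d i + 1)),
        (∏ i, (d i - s i + r).choose r) * s j =
        ∏ i, (if i = j then s i * (d i - s i + r).choose r else (d i - s i + r).choose r) := by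
      intro s _
      rw [← Finset.mul_prod_erase Finset.univ (fun i => (d i - s i + r).choose r)
        (Finset.mem_univ j), ← Finset.mul_prod_erase Finset.univ (fun i => if i = j then
        s i * (d i - s i + r).choose r else (d i - s i + r).choose r) (Finset.mem_univ j)]
      rw [if_pos rfl]
      have : ∏ i ∈ Finset.univ.erase j, (if i = j then s i * (d i - s i + r).choose r else
          (d i - s i + r).choose r) = ∏ i ∈ Finset.univ.erase j, (d i - s i + r).choose r :=
        Finset.prod_congr rfl fun i hi => if_neg (Finset.ne_of_mem_erase hi)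
      rw [this]
      ring
    rw [Finset.sum_congr rfl e]
    rw [← Finset.prod_univ_sum (fun i => Finset.range (d i + 1))
      (fun i t => if i = j then t * (d i - t + r).choose r else (d i - t + r).choose r)]
    rw [← Finset.mul_prod_erase Finset.univ _ (Finset.mem_univ j)]
    simp only [if_true]
    rw [← mul_assoc, sum_mul_choose', mul_assoc]
    congr 1
    rw [← Finset.mul_prod_erase Finset.univ (fun i => (d i + r + 1).choose (r + 1))
      (Finset.mem_univ j)]
    congr 1
    refine Finset.prod_congr rfl fun i hi => ?_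
    simp only [if_neg (Finset.ne_of_mem_erase hi)]
    exact sum_choose r (d i)
  calc (r + 2) * ∑ s ∈ Fintype.piFinset (fun i => Finset.range (d i + 1)),
      (∏ i, (d i - s i + r).choose r) * (a + b * ∑ i, s i)
      = (r + 2) * a * ∑ s ∈ Fintype.piFinset (fun i => Finset.range (d i + 1)),
        (∏ i, (d i - s i + r).choose r) +
        b * ∑ j, ((r + 2) * ∑ s ∈ Fintype.piFinset (fun i => Finset.range (d i + 1)),
          (∏ i, (d i - s i + r).choose r) * s j) := by
        have e1 : ∀ s : Fin n → ℕ, (r + 2) * ((∏ i, (d i - s i + r).choose r) *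
            (a + b * ∑ i, s i)) = (r + 2) * a * (∏ i, (d i - s i + r).choose r) +
            ∑ j, b * ((r + 2) * ((∏ i, (d i - s i + r).choose r) * s j)) := by
          intro s
          rw [← Finset.mul_sum, ← Finset.mul_sum, ← Finset.mul_sum]
          ring
        rw [Finset.mul_sum, Finset.sum_congr rfl fun s _ => e1 s, Finset.sum_add_distrib,
          Finset.sum_comm, ← Finset.mul_sum]
        congr 1
        rw [Finset.mul_sum]
        refine Finset.sum_congr rfl fun j _ => ?_
        rw [← Finset.mul_sum, ← Finset.mul_sum]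
    _ = _ := by
        rw [h1]
        simp_rw [h2]
        rw [← Finset.sum_mul]
        ring

lemma choose_convex (r S : ℕ) :
    (r + 1) + (r + 1).choose 2 * S ≤ (1 + S + r).choose r := by
  induction S with
  | zero => simp [Nat.add_comm 1 r, Nat.choose_succ_self_right]
  | succ S ih =>
    rcases Nat.eq_zero_or_pos r with rfl | hr
    · simp
    obtain ⟨r, rfl⟩ : ∃ k, r = k + 1 := ⟨r - 1, by omega⟩
    have h1 : (1 + (S + 1) + (r + 1)).choose (r + 1) =
        (1 + S + (r + 1)).choose r + (1 + S + (r + 1)).choose (r + 1) := by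
      rw [show 1 + (S + 1) + (r + 1) = (1 + S + (r + 1)) + 1 by ring, Nat.choose_succ_succ']
    have h2 : (r + 1 + 1).choose 2 ≤ (1 + S + (r + 1)).choose r := by
      calc (r + 1 + 1).choose 2 = (r + 2).choose r := by
            rw [← Nat.choose_symm_add (a := r) (b := 2)]
        _ ≤ (1 + S + (r + 1)).choose r := Nat.choose_le_choose r (by omega)
    rw [h1]
    have h3 : (r + 1 + 1).choose 2 * (S + 1) = (r + 1 + 1).choose 2 * S + (r + 1 + 1).choose 2 := by
      ring
    omega

/-- One step of the recursion for hook sum `1`. -/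
lemma U_step {n : ℕ} (r : ℕ) (α : Fin n → ℕ) :
    ((r + 2) * (r + 1) + (r + 1).choose 2 * ∑ i, α i) * U (r + 1) α ≤
      (r + 2) * U r (Fin.snoc (α := fun _ => ℕ) α 1) := by
  refine le_trans ?_ (Nat.mul_le_mul_left _ (U_snoc_ge r α 1))
  have key : ∀ A ∈ TS α, ((r + 2) * (r + 1) + (r + 1).choose 2 * ∑ i, α i) * Psi (r + 1) A ≤
      (r + 2) * ∑ s ∈ Fintype.piFinset (fun i => Finset.range (A i i + 1)),
      (∏ i, (A i i - s i + r).choose r) * (1 + ∑ i, s i + r).choose r := by
    intro A hA
    have hd := sum_diag ((mem_TS _ _).1 hA)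
    rw [← hd]
    have h := lin_sum (fun i => A i i) r (r + 1) ((r + 1).choose 2)
    have e : Psi (r + 1) A = ∏ i, (A i i + r + 1).choose (r + 1) := rfl
    rw [e, ← h]
    refine Nat.mul_le_mul_left _ ?_
    refine Finset.sum_le_sum ?_
    intro s _
    exact Nat.mul_le_mul_left _ (choose_convex r (∑ i, s i))
  calc _ = ∑ A ∈ TS α, ((r + 2) * (r + 1) + (r + 1).choose 2 * ∑ i, α i) * Psi (r + 1) A := by
        unfold U; exact Finset.mul_sum (TS α) (fun A => Psi (r + 1) A) _
    _ ≤ ∑ A ∈ TS α, (r + 2) * ∑ s ∈ Fintype.piFinset (fun i => Finset.range (A i i + 1)),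
      (∏ i, (A i i - s i + r).choose r) * (1 + ∑ i, s i + r).choose r :=
        Finset.sum_le_sum key
    _ = _ := by rw [Finset.mul_sum (TS α)]

lemma one_add_sum_le_prod {ι : Type*} (s : Finset ι) (f : ι → ℚ) (hf : ∀ i, 0 ≤ f i) :
    1 + ∑ i ∈ s, f i ≤ ∏ i ∈ s, (1 + f i) := by
  classical
  induction s using Finset.induction_on with
  | empty => simp
  | insert a s ha ih =>
    rw [Finset.sum_insert ha, Finset.prod_insert ha]
    have h1 : (0 : ℚ) ≤ ∑ i ∈ s, f i := Finset.sum_nonneg fun i _ => hf i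
    have h2 := hf a
    nlinarith [mul_nonneg h2 h1]

lemma one_add_sum_le_prod_nat {ι : Type*} (s : Finset ι) (f : ι → ℕ) :
    1 + ∑ i ∈ s, f i ≤ ∏ i ∈ s, (1 + f i) := by
  have h := one_add_sum_le_prod s (fun i => (f i : ℚ)) (fun i => by positivity)
  exact_mod_cast h

/-- Adding a vertex with an arbitrary hook sum multiplies the count by at least `1 + ∑ α`. -/
lemma T_snoc_ge {n : ℕ} (α : Fin n → ℕ) (x : ℕ) :
    (1 + ∑ i, α i) * (TS α).card ≤ (TS (Fin.snoc (α := fun _ => ℕ) α x)).card := by
  have h := U_snoc_ge 0 α x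
  have e1 : U 0 (Fin.snoc (α := fun _ => ℕ) α x) = (TS (Fin.snoc (α := fun _ => ℕ) α x)).card := by
    simp [U, Psi]
  rw [e1] at h
  refine le_trans ?_ h
  rw [mul_comm, ← smul_eq_mul, ← Finset.sum_const]
  refine Finset.sum_le_sum fun A hA => ?_
  have hd := sum_diag ((mem_TS _ _).1 hA)
  rw [← hd]
  simp only [Nat.choose_zero_right, Finset.prod_const_one, mul_one, Finset.sum_const, smul_eq_mul,
    Fintype.card_piFinset, Finset.card_range]
  calc 1 + ∑ i, A i i ≤ ∏ i, (1 + A i i) := one_add_sum_le_prod_nat _ _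
    _ = _ := Finset.prod_congr rfl fun i _ => by ring

/-- `T(α, x) ≥ U₁(α)`. -/
lemma T_snoc_ge' {n : ℕ} (α : Fin n → ℕ) (x : ℕ) :
    U 1 α ≤ (TS (Fin.snoc (α := fun _ => ℕ) α x)).card := by
  have h := U_snoc_ge 0 α x
  have e1 : U 0 (Fin.snoc (α := fun _ => ℕ) α x) = (TS (Fin.snoc (α := fun _ => ℕ) α x)).card := by
    simp [U, Psi]
  rw [e1] at h
  refine le_trans ?_ h
  unfold U Psi
  refine Finset.sum_le_sum fun A _ => ?_
  simp

lemma two_mul_Psi_two {n : ℕ} (A : Matrix (Fin n) (Fin n) ℕ) :
    (2 + ∑ i, A i i) * Psi 1 A ≤ 2 * Psi 2 A := by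
  have h1 : ∀ i, ((A i i + 2).choose 2 : ℚ) = ((A i i + 1).choose 1 : ℚ) * (1 + (A i i : ℚ) / 2) := by
    intro i
    rw [Nat.cast_choose_two, Nat.choose_one_right]
    push_cast
    ring
  have h2 : (Psi 2 A : ℚ) = (Psi 1 A : ℚ) * ∏ i, (1 + (A i i : ℚ) / 2) := by
    unfold Psi
    push_cast
    rw [← Finset.prod_mul_distrib]
    exact Finset.prod_congr rfl fun i _ => h1 i
  have h3 : (1 : ℚ) + ∑ i, (A i i : ℚ) / 2 ≤ ∏ i, (1 + (A i i : ℚ) / 2) :=
    one_add_sum_le_prod _ _ (fun i => by positivity)
  have h4 : ((2 + ∑ i, A i i) * Psi 1 A : ℚ) ≤ 2 * Psi 2 A := by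
    rw [h2]
    have h5 : (0 : ℚ) ≤ Psi 1 A := by positivity
    rw [← Finset.sum_div] at h3
    push_cast
    nlinarith [mul_le_mul_of_nonneg_left h3 h5]
  exact_mod_cast h4

lemma U_two_ge {n : ℕ} (α : Fin n → ℕ) : (2 + ∑ i, α i) * U 1 α ≤ 2 * U 2 α := by
  unfold U
  rw [Finset.mul_sum, Finset.mul_sum]
  refine Finset.sum_le_sum fun A hA => ?_
  rw [← sum_diag ((mem_TS _ _).1 hA)]
  exact two_mul_Psi_two A

/-! ### The vectors `(1^k, 0^(n-k))` -/

/-- The vector `(1^k, 0^(n-k))`. -/
def av (k n : ℕ) : Fin n → ℕ := fun i => if i.val < k then 1 else 0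

lemma av_succ (k n : ℕ) :
    av k (n + 1) = Fin.snoc (α := fun _ => ℕ) (av k n) (if n < k then 1 else 0) := by
  funext i
  induction i using Fin.lastCases with
  | last => simp [av]
  | cast i => simp [av]

lemma sum_av (k n : ℕ) : ∑ i, av k n i = min k n := by
  induction n with
  | zero => simp
  | succ n ih =>
    rw [av_succ, Fin.sum_univ_castSucc]
    simp only [Fin.snoc_castSucc, Fin.snoc_last]
    rw [ih]
    split_ifs with h <;> omega

lemma av_of_le {k k' n : ℕ} (h : n ≤ k) (h' : n ≤ k') : av k n = av k' n := by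
  funext i
  have := i.2
  simp [av, show i.val < k by omega, show i.val < k' by omega]

/-- `V r n = U_r(1^n)`. -/
noncomputable def V (r n : ℕ) : ℕ := U r (av n n)

lemma V_step (r n : ℕ) :
    ((r + 2) * (r + 1) + (r + 1).choose 2 * n) * V (r + 1) n ≤ (r + 2) * V r (n + 1) := by
  have h := U_step r (av n n)
  rw [sum_av, min_self] at h
  unfold V
  have e : av (n + 1) (n + 1) = Fin.snoc (α := fun _ => ℕ) (av n n) 1 := by
    rw [av_succ, av_of_le (show n ≤ n + 1 by omega) le_rfl]
    simp
  rw [e]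
  exact h

lemma V_one (r : ℕ) : r + 1 ≤ V r 1 := by
  unfold V U
  have hmem : (Matrix.of fun _ _ => 1 : Matrix (Fin 1) (Fin 1) ℕ) ∈ TS (av 1 1) := by
    rw [mem_TS, isTesler_iff]
    constructor
    · intro i j hji
      exact absurd hji (by have := i.2; have := j.2; simp only [Fin.lt_def]; omega)
    · intro i
      simp [av]
  refine le_trans ?_ (Finset.single_le_sum (f := fun A => Psi r A) (fun _ _ => Nat.zero_le _) hmem)
  unfold Psi
  simp [Nat.add_comm 1 r]

lemma V_base : 12 ^ 10 ≤ V 1 10 := by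
  have h1 := V_step 1 9
  have h2 := V_step 2 8
  have h3 := V_step 3 7
  have h4 := V_step 4 6
  have h5 := V_step 5 5
  have h6 := V_step 6 4
  have h7 := V_step 7 3
  have h8 := V_step 8 2
  have h9 := V_step 9 1
  have h10 := V_one 10
  norm_num [Nat.choose] at h1 h2 h3 h4 h5 h6 h7 h8 h9 h10
  omega

lemma V_growth (m : ℕ) : (m + 6) * (m + 2) * V 1 m ≤ 6 * V 1 (m + 1) := by
  have h1 := V_step 1 m
  have h2 : (2 + m) * V 1 m ≤ 2 * V 2 m := by
    have := U_two_ge (av m m)
    rw [sum_av, min_self] at this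
    exact this
  norm_num [Nat.choose] at h1
  nlinarith

lemma pow_ineq (m : ℕ) (hm : 11 ≤ m) : 6 * (m + 2) ^ m ≤ (m + 5) * (m + 1) ^ m := by
  rcases Nat.eq_or_lt_of_le hm with rfl | hm
  · norm_num
  have hpos : (0 : ℝ) < (m : ℝ) + 1 := by positivity
  have h1 : (((m : ℝ) + 2) / (m + 1)) ^ m ≤ Real.exp 1 := by
    have h2 : ((m : ℝ) + 2) / (m + 1) ≤ Real.exp (1 / (m + 1)) := by
      have := Real.add_one_le_exp (1 / ((m : ℝ) + 1))
      refine le_trans (le_of_eq ?_) this
      field_simp
      ring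
    calc (((m : ℝ) + 2) / (m + 1)) ^ m ≤ (Real.exp (1 / (m + 1))) ^ m :=
          pow_le_pow_left₀ (by positivity) h2 m
      _ = Real.exp (m * (1 / (m + 1))) := by rw [← Real.exp_nat_mul]
      _ ≤ Real.exp 1 := by
          apply Real.exp_le_exp.2
          rw [mul_one_div, div_le_one hpos]
          linarith
  have h2 : Real.exp 1 < 17 / 6 := lt_of_lt_of_le Real.exp_one_lt_d9 (by norm_num)
  have hm' : (12 : ℝ) ≤ m := by exact_mod_cast hm
  rw [div_pow, div_le_iff₀ (by positivity)] at h1
  have h3 : (6 : ℝ) * ((m : ℝ) + 2) ^ m ≤ (m + 5) * (m + 1) ^ m := by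
    have h4 : (0 : ℝ) < ((m : ℝ) + 1) ^ m := by positivity
    nlinarith
  exact_mod_cast h3

lemma V_ge (m : ℕ) (hm : 10 ≤ m) : (m + 2) ^ m ≤ V 1 m := by
  induction m, hm using Nat.le_induction with
  | base => exact V_base
  | succ m hm ih =>
    have h1 := V_growth m
    have h2 := pow_ineq (m + 1) (by omega)
    have h3 : (m + 6) * (m + 2) * (m + 2) ^ m ≤ 6 * V 1 (m + 1) :=
      (Nat.mul_le_mul_left _ ih).trans h1
    have h4 : (m + 1 + 5) * (m + 1 + 1) ^ (m + 1) = (m + 6) * (m + 2) * (m + 2) ^ m := by ring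
    rw [h4] at h2
    have h5 := h2.trans h3
    omega

lemma card_ge (k m : ℕ) (hk : 11 ≤ k) : (k + 1) ^ (k + m - 1) ≤ (TS (av k (k + m))).card := by
  induction m with
  | zero =>
    obtain ⟨j, rfl⟩ : ∃ j, k = j + 1 := ⟨k - 1, by omega⟩
    have h1 := V_ge j (by omega)
    have h2 := T_snoc_ge' (av (j + 1) j) 1
    have e : av (j + 1) (j + 1) = Fin.snoc (α := fun _ => ℕ) (av (j + 1) j) 1 := by
      rw [av_succ]; simp
    have e2 : av (j + 1) j = av j j := av_of_le (by omega) le_rfl
    rw [← e, e2] at h2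
    simpa using h1.trans h2
  | succ m ih =>
    have h1 := T_snoc_ge (av k (k + m)) 0
    have e : av k (k + (m + 1)) = Fin.snoc (α := fun _ => ℕ) (av k (k + m)) 0 := by
      change av k (k + m + 1) = _
      rw [av_succ]; simp
    rw [e]
    refine le_trans ?_ h1
    rw [sum_av, min_eq_left (by omega)]
    calc (k + 1) ^ (k + (m + 1) - 1) = (1 + k) * (k + 1) ^ (k + m - 1) := by
          rw [show k + (m + 1) - 1 = (k + m - 1) + 1 by omega, pow_succ]
          ring
      _ ≤ _ := Nat.mul_le_mul_left _ ih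

end aux

/-- For all integers `n ≥ k ≥ 11`, the number of Tesler matrices with hook sums
`(1^k, 0^(n-k))` is at least `(k+1)^(n-1)`. -/
theorem result (n k : ℕ) (hk : 11 ≤ k) (hn : k ≤ n) :
    (k + 1) ^ (n - 1) ≤ T (fun i : Fin n => if i.val < k then 1 else 0) := by
  obtain ⟨m, rfl⟩ := Nat.exists_eq_add_of_le hn
  rw [T_eq]
  exact card_ge k m hk

end Pool.Agent.Results.MP_1235ca_co.TeslerLowerBound
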